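import Pool.Agent.H21.SMP3

namespace Pool.Agent.Results.MP_c4ab36_lc.Q1

open Pool.Agent.H11.PT Pool.Agent.H21.SMPDefs

theorem result (S : Type) [Semigroup S] [Finite S] (h : CR S) (enc : S → ℕ)
    (henc : Function.Injective enc) : InNP (SMP enc) :=
  H21.SMP.inNP h enc henc

end Pool.Agent.Results.MP_c4ab36_lc.Q1
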